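import Pool.Agent.Helper43.GD.St

set_option autoImplicit false

namespace Pool.Agent.Helper85.GD

open Pool.Agent.Helper43.GD

section
variable {L : Type} [CommRing L] (x : Lˣ)

/-- first generators -/
def e (a : L) : FreeGroup (L ⊕ L) := FreeGroup.of (Sum.inl a)
/-- second generators -/
def f (a : L) : FreeGroup (L ⊕ L) := FreeGroup.of (Sum.inr a)
/-- Weyl words -/
def o (u : Lˣ) : FreeGroup (L ⊕ L) := e (u : L) * f (-((u⁻¹ : Lˣ) : L)) * e (u : L)

/-- the relators -/
def rels : Set (FreeGroup (L ⊕ L)) :=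
  {r | (∃ a b, r = e (a + b) * (e a * e b)⁻¹) ∨ (∃ a b, r = f (a + b) * (f a * f b)⁻¹) ∨
    (∃ u, (u = 1 ∨ u = x) ∧ ∃ a, r = o u * e a * (o u)⁻¹ *
      (f (-(((u⁻¹ : Lˣ) : L) * ((u⁻¹ : Lˣ) : L) * a)))⁻¹) ∨
    (∃ u, (u = 1 ∨ u = x) ∧ ∃ b, r = o u * f b * (o u)⁻¹ *
      (e (-((u : L) * (u : L) * b)))⁻¹)}

end

theorem hHAT : StHAT := by
  intro L _ x
  have hmk : ∀ r ∈ rels x, PresentedGroup.mk (rels x) r = 1 := fun r hr =>
    PresentedGroup.one_of_mem hr
  let s : Sys L (PresentedGroup (rels x)) :=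
    { E := fun a => PresentedGroup.mk (rels x) (e a)
      F := fun a => PresentedGroup.mk (rels x) (f a)
      Eadd := by
        intro a b
        have := hmk _ (Or.inl ⟨a, b, rfl⟩)
        rw [map_mul, map_inv, map_mul, mul_inv_eq_one] at this
        exact this
      Fadd := by
        intro a b
        have := hmk _ (Or.inr (Or.inl ⟨a, b, rfl⟩))
        rw [map_mul, map_inv, map_mul, mul_inv_eq_one] at this
        exact this }
  have hom : ∀ u : Lˣ, s.om u = PresentedGroup.mk (rels x) (o u) := by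
    intro u
    unfold o
    rw [map_mul, map_mul]
    rfl
  have hW : ∀ u : Lˣ, (u = 1 ∨ u = x) → s.Weyl u := by
    intro u hu
    constructor
    · intro a
      have := hmk _ (Or.inr (Or.inr (Or.inl ⟨u, hu, a, rfl⟩)))
      rw [map_mul, map_inv, map_mul, map_mul, map_inv, mul_inv_eq_one, ← hom u] at this
      exact this
    · intro b
      have := hmk _ (Or.inr (Or.inr (Or.inr ⟨u, hu, b, rfl⟩)))
      rw [map_mul, map_inv, map_mul, map_mul, map_inv, mul_inv_eq_one, ← hom u] at this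
      exact this
  refine ⟨PresentedGroup (rels x), inferInstance, s, hW 1 (Or.inl rfl), hW x (Or.inr rfl), ?_, ?_⟩
  · rw [eq_top_iff, ← PresentedGroup.closure_range_of (rels x)]
    apply Subgroup.closure_mono
    rintro _ ⟨z, rfl⟩
    rcases z with a | a
    · exact Or.inl ⟨a, rfl⟩
    · exact Or.inr ⟨a, rfl⟩
  · intro A _ s' h1 hx
    let g : L ⊕ L → A := Sum.elim s'.E s'.F
    have he : ∀ a, FreeGroup.lift g (e a) = s'.E a := fun a => by simp [e, g]
    have hf : ∀ a, FreeGroup.lift g (f a) = s'.F a := fun a => by simp [f, g]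
    have ho : ∀ u, FreeGroup.lift g (o u) = s'.om u := fun u => by
      unfold o; rw [map_mul, map_mul, he, hf]; rfl
    have hWe : ∀ u : Lˣ, (u = 1 ∨ u = x) → s'.Weyl u := by
      rintro u (rfl | rfl)
      · exact h1
      · exact hx
    have hr : ∀ r ∈ rels x, FreeGroup.lift g r = 1 := by
      rintro r (⟨a, b, rfl⟩ | ⟨a, b, rfl⟩ | ⟨u, hu, a, rfl⟩ | ⟨u, hu, b, rfl⟩)
      · rw [map_mul, map_inv, map_mul, he, he, he, s'.Eadd, mul_inv_cancel]
      · rw [map_mul, map_inv, map_mul, hf, hf, hf, s'.Fadd, mul_inv_cancel]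
      · rw [map_mul, map_inv, map_mul, map_mul, map_inv, ho, he, hf, (hWe u hu).1, mul_inv_cancel]
      · rw [map_mul, map_inv, map_mul, map_mul, map_inv, ho, he, hf, (hWe u hu).2, mul_inv_cancel]
    refine ⟨PresentedGroup.toGroup hr, fun a => ?_, fun b => ?_⟩
    · exact (PresentedGroup.toGroup.of hr (x := Sum.inl a)).trans rfl
    · exact (PresentedGroup.toGroup.of hr (x := Sum.inr b)).trans rfl

end Pool.Agent.Helper85.GD
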